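import Pool.Agent.Helper50.AY.St

/-!
# Project AY, module CU: the constants are in `U`
-/

set_option autoImplicit false

namespace Pool.Agent.Helper37.AY

open Pool.Agent.Helper50.AY Pool.Agent.Helper43.GD Polynomial

theorem hCU (hP1 : StP1) (hGT : StGT) (hRA : StRA) : StCU := by
  intro L A _ _ Q p hpF k x hR hxU ev hev c hc
  obtain ⟨-, -, h3, -, -⟩ := hRA L p k x hR
  have hfin : Finite L := hR.fin
  -- the units `x + j`
  have hcast : ∀ j : ZMod p, ev (C j) = ((j.val : ℕ) : L) := by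
    intro j
    have e1 : (C j : (ZMod p)[X]) = ((j.val : ℕ) : (ZMod p)[X]) := by
      conv_lhs => rw [← ZMod.natCast_zmod_val j]
      exact map_natCast C _
    rw [e1, map_natCast]
  have hY : ∀ j : ZMod p, ∃ y : Lˣ, y ∈ Q.U ∧ (y : L) = (x : L) + ev (C j) := by
    intro j
    obtain ⟨n, hn⟩ := h3 j.val
    refine ⟨x ^ n, Q.U.pow_mem hxU n, ?_⟩
    rw [Units.val_pow_eq_pow_val, hn, hcast]
  choose Y hYU hYv using hY
  -- the unit `u`
  have hcc : ev (C c) * ev (C c⁻¹) = 1 := by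
    rw [← map_mul, ← map_mul, mul_inv_cancel₀ hc, map_one, map_one]
  obtain ⟨u, hu, hu'⟩ : ∃ u : Lˣ, (u : L) = ev (C c⁻¹) ∧ ((u⁻¹ : Lˣ) : L) = ev (C c) :=
    ⟨⟨ev (C c⁻¹), ev (C c), by rw [mul_comm]; exact hcc, hcc⟩, rfl, rfl⟩
  have hstep : ∀ j : ZMod p, Q.S u (Y (j + c) * (Y j)⁻¹) := by
    intro j
    refine hP1 L A Q u _ (Y j)⁻¹ (Q.U.mul_mem (hYU _) (Q.U.inv_mem (hYU _)))
      (Q.U.inv_mem (hYU _)) ?_
    have e1 : (Y (j + c) : L) = (Y j : L) + ev (C c) := by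
      rw [hYv, hYv, map_add, map_add]
      ring
    rw [Units.val_mul, e1, hu]
    have e2 : (Y j : L) * ((Y j)⁻¹ : Lˣ) = 1 := Units.mul_inv _
    linear_combination (-(((Y j)⁻¹ : Lˣ) : L)) * hcc - ev (C c⁻¹) * e2
  have hprod : ∀ n : ℕ, Q.S u (Y ((n : ZMod p) * c) * (Y 0)⁻¹) := by
    intro n
    induction n with
    | zero =>
      rw [Nat.cast_zero, zero_mul, mul_inv_cancel]
      exact Q.S_one u
    | succ n ih =>
      have e1 : Y (((n + 1 : ℕ) : ZMod p) * c) * (Y 0)⁻¹ =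
          (Y ((n : ZMod p) * c + c) * (Y ((n : ZMod p) * c))⁻¹) *
            (Y ((n : ZMod p) * c) * (Y 0)⁻¹) := by
        rw [Nat.cast_succ, add_mul, one_mul]
        group
      rw [e1]
      exact Q.S_mul (hstep _) ih
  have hσ : Q.S u (Y 1 * (Y 0)⁻¹) := by
    have h := hprod (c⁻¹).val
    rw [ZMod.natCast_zmod_val, inv_mul_cancel₀ hc] at h
    exact h
  have hY0 : Y 0 = x := by
    apply Units.ext
    rw [hYv, map_zero, map_zero, add_zero]
  have hY1 : (Y 1 : L) = (x : L) + 1 := by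
    rw [hYv, map_one, map_one]
  rw [hY0] at hσ
  have hxx : (x : L) * ((x⁻¹ : Lˣ) : L) = 1 := Units.mul_inv _
  have hσv : ((Y 1 * x⁻¹ : Lˣ) : L) = 1 + ((x⁻¹ : Lˣ) : L) := by
    rw [Units.val_mul, hY1]
    linear_combination hxx
  have huU : u ∈ Q.U := by
    refine hGT L A Q u _ hσ ⟨-1 * x⁻¹, Q.U.mul_mem Q.neg (Q.U.inv_mem hxU), ?_⟩ ?_
    · rw [hσv, Units.val_mul, Units.val_neg, Units.val_one]
      ring
    · intro N h1 hN
      have hNi : ∀ y ∈ N, ((x⁻¹ : Lˣ) : L) * y ∈ N := by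
        intro y hy
        have h4 := N.sub_mem (hN _ hσ y hy) hy
        rw [hσv] at h4
        have e1 : (1 + ((x⁻¹ : Lˣ) : L)) * y - y = ((x⁻¹ : Lˣ) : L) * y := by ring
        rwa [e1] at h4
      have hNp : ∀ n : ℕ, ∀ y ∈ N, (((x⁻¹) ^ n : Lˣ) : L) * y ∈ N := by
        intro n
        induction n with
        | zero => intro y hy; simpa using hy
        | succ n ih =>
          intro y hy
          rw [pow_succ, Units.val_mul, mul_assoc]
          exact ih _ (hNi y hy)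
      have hfu : Finite Lˣ := inferInstance
      have hpos : 0 < orderOf x := orderOf_pos x
      have e1 : x = (x⁻¹) ^ (orderOf x - 1) := by
        have e2 : (x⁻¹) ^ (orderOf x - 1) * x⁻¹ = 1 := by
          rw [← pow_succ, Nat.sub_add_cancel hpos, inv_pow, pow_orderOf_eq_one, inv_one]
        exact (mul_inv_eq_one.1 e2).symm
      refine hR.gn N h1 fun y hy => ?_
      have h5 := hNp (orderOf x - 1) y hy
      rw [← e1] at h5
      exact h5
  exact ⟨u⁻¹, Q.U.inv_mem huU, hu'⟩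

end Pool.Agent.Helper37.AY
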